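import Pool.Agent.H176.DT.Stm3
import Pool.Agent.H971.DT2.Prod

/-!
# Project DT of helper176, job DT3-BAS: the subfield generated by a transcendental key polynomial
-/

set_option autoImplicit false

universe u

namespace Pool.Agent.Y606.DT3

open Pool.Agent.H176.DT Polynomial Pool.Agent.H971.DT2

section bas

variable {K : Type u} [Field K] {V : ValuationSubring K} {L : Subfield K} {θ : K} {ϕ : L[X]}
  {n : ℕ} {β : Fin n → L[X]}

theorem dg_le (hm : ϕ.Monic) {f : L[X]} (h : Domi V θ ϕ f) (k : ℕ) :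
    V.valuation (aeval θ (dg ϕ k f * ϕ ^ k)) ≤ V.valuation (aeval θ f) := by
  obtain ⟨N, d, hd, hv⟩ := h
  obtain ⟨h1, h2⟩ := dg_uniq hm N d f hd
  by_cases hk : k < N
  · rw [h1 k hk]
    exact hv k hk
  · rw [h2 k (by omega), zero_mul, map_zero, map_zero]
    exact zero_le

theorem exn_le (hm : ϕ.Monic) {f : L[X]} (h : Domi V θ ϕ f) {N : ℕ} {d : ℕ → L[X]}
    (hd : Exn ϕ N d f) {k : ℕ} (hk : k < N) :
    V.valuation (aeval θ (d k * ϕ ^ k)) ≤ V.valuation (aeval θ f) := by
  rw [← (dg_uniq hm N d f hd).1 k hk]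
  exact dg_le hm h k

theorem aeval_mem {S : Subfield K} (hL : L ≤ S) {t : K} (ht : t ∈ S) (f : L[X]) :
    aeval t f ∈ S := by
  rw [aeval_eq_sum_range]
  refine sum_mem fun i _ => ?_
  rw [Algebra.smul_def]
  exact mul_mem (hL (f.coeff i).2) (pow_mem ht i)

theorem comp_exn (hd : 0 < ϕ.degree) (f : L[X]) (N : ℕ) (hN : f.natDegree < N) :
    Exn ϕ N (fun k => C (f.coeff k)) (f.comp ϕ) := by
  refine ⟨fun k => lt_of_le_of_lt degree_C_le hd, ?_⟩
  rw [comp, eval₂_eq_sum_range' _ hN]

theorem mem_gen {t z : K} (hz : z ∈ L ⊔ Subfield.closure {t}) :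
    z ∈ Subfield.closure (Set.range (algebraMap L K) ∪ {t}) := by
  have h : L ⊔ Subfield.closure {t} ≤
      Subfield.closure (Set.range (algebraMap L K) ∪ {t}) := by
    refine sup_le ?_ (Subfield.closure_mono Set.subset_union_right)
    intro a ha
    exact Subfield.subset_closure (Or.inl ⟨⟨a, ha⟩, rfl⟩)
  exact h hz

/-- orthogonality for polynomials in `ϕ` -/
theorem orth_poly (hK : KP V θ ϕ β) (hD : ∀ f : L[X], Domi V θ ϕ f) (a : Fin n → L[X])
    (i : Fin n) : V.valuation (aeval (aeval θ ϕ) (a i) * aeval θ (β i)) ≤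
      V.valuation (∑ j, aeval (aeval θ ϕ) (a j) * aeval θ (β j)) := by
  have hdeg : 0 < ϕ.degree := natDegree_pos_iff_degree_pos.1 hK.deg
  obtain ⟨N, hN⟩ : ∃ N, ∀ j, (a j).natDegree < N := by
    refine ⟨(∑ j, (a j).natDegree) + 1, fun j => ?_⟩
    exact Nat.lt_succ_of_le (Finset.single_le_sum (f := fun j => (a j).natDegree)
      (fun _ _ => Nat.zero_le _) (Finset.mem_univ j))
  have hcomp : ∀ j, (a j).comp ϕ = ∑ k ∈ Finset.range N, C ((a j).coeff k) * ϕ ^ k :=
    fun j => (comp_exn hdeg (a j) N (hN j)).sum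
  have hp : ∀ j, aeval (aeval θ ϕ) (a j) = aeval θ ((a j).comp ϕ) := fun j => by
    rw [aeval_comp]
  set S : L[X] := ∑ j, (a j).comp ϕ * β j with hS
  have hSv : aeval θ S = ∑ j, aeval (aeval θ ϕ) (a j) * aeval θ (β j) := by
    rw [hS, map_sum]
    refine Finset.sum_congr rfl fun j _ => ?_
    rw [map_mul, hp]
  have hE : Exn ϕ N (fun k => ∑ j, C ((a j).coeff k) * β j) S := by
    constructor
    · intro k
      refine lt_of_le_of_lt (degree_sum_le _ _) ?_
      rw [Finset.sup_lt_iff (bot_lt_iff_ne_bot.2 (degree_ne_bot.2 hK.monic.ne_zero))]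
      intro j _
      by_cases hc : (a j).coeff k = 0
      · rw [hc, C_0, zero_mul, degree_zero]
        exact bot_lt_iff_ne_bot.2 (degree_ne_bot.2 hK.monic.ne_zero)
      · rw [degree_C_mul hc]
        exact hK.bdeg j
    · rw [hS]
      simp only [hcomp, Finset.sum_mul]
      rw [Finset.sum_comm]
      refine Finset.sum_congr rfl fun k _ => ?_
      refine Finset.sum_congr rfl fun j _ => ?_
      ring
  rw [← hSv, hp i, ← map_mul, hcomp i, Finset.sum_mul, map_sum]
  refine V.valuation.map_sum_le fun k hk => ?_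
  rw [Finset.mem_range] at hk
  have h1 := exn_le hK.monic (hD S) hE hk
  refine le_trans ?_ h1
  have h2 := hK.orth (fun j => (a j).coeff k) i
  have e1 : C ((a i).coeff k) * ϕ ^ k * β i = C ((a i).coeff k) * β i * ϕ ^ k := by ring
  have e2 : ∀ x y : L[X], V.valuation (aeval θ (x * y)) =
      V.valuation (aeval θ x) * V.valuation (aeval θ y) := fun x y => by rw [map_mul, map_mul]
  rw [e1, e2 _ (ϕ ^ k), e2 _ (ϕ ^ k)]
  exact mul_le_mul' h2 le_rfl

end bas

theorem bas' : S3_bas.{u} := by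
  intro K _ V L θ ϕ n β hθ hK hD
  have hdeg : 0 < ϕ.degree := natDegree_pos_iff_degree_pos.1 hK.deg
  have hpθ : aeval θ ϕ ∈ L ⊔ Subfield.closure {θ} :=
    aeval_mem le_sup_left ((le_sup_right : Subfield.closure {θ} ≤ _)
      (Subfield.subset_closure rfl)) ϕ
  have hpp : aeval θ ϕ ∈ L ⊔ Subfield.closure {aeval θ ϕ} :=
    (le_sup_right : Subfield.closure {aeval θ ϕ} ≤ _) (Subfield.subset_closure rfl)
  have hL1 : L ≤ L ⊔ Subfield.closure {aeval θ ϕ} := le_sup_left
  refine ⟨hθ.aeval ϕ hK.deg.ne' (by rw [hK.monic.leadingCoeff]; exact one_mem _), ?_, ?_, ?_, ?_, ?_⟩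
  · intro f j
    have hE := comp_exn hdeg f (f.natDegree + 1) (Nat.lt_succ_self _)
    have hp : aeval (aeval θ ϕ) f = aeval θ (f.comp ϕ) := by rw [aeval_comp]
    rw [hp]
    by_cases hj : j < f.natDegree + 1
    · have h1 := exn_le hK.monic (hD (f.comp ϕ)) hE hj
      refine le_trans (le_of_eq ?_) h1
      rw [map_mul (aeval θ), aeval_C, map_pow]
      rfl
    · rw [coeff_eq_zero_of_natDegree_lt (by omega)]
      simp
  · refine sup_le le_sup_left ?_
    rw [Subfield.closure_le]
    rintro _ rfl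
    exact hpθ
  · intro i
    exact aeval_mem le_sup_left ((le_sup_right : Subfield.closure {θ} ≤ _)
      (Subfield.subset_closure rfl)) (β i)
  · -- the basis generates
    intro z hz
    set L1 : Subfield K := L ⊔ Subfield.closure {aeval θ ϕ} with hL1def
    set B : Submodule L1 K := Submodule.span L1 (Set.range fun i => aeval θ (β i)) with hB
    have hβ : ∀ i, aeval θ (β i) ∈ B := fun i => Submodule.subset_span ⟨i, rfl⟩
    have hpoly : ∀ h : L[X], aeval θ h ∈ B := by
      intro h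
      obtain ⟨N, hN⟩ := dg_exists hK.monic hK.deg h
      rw [hN.sum, map_sum]
      refine sum_mem fun k _ => ?_
      obtain ⟨c, hc⟩ := hK.span (dg ϕ k h) (hN.deg k)
      rw [hc, Finset.sum_mul, map_sum]
      refine sum_mem fun i _ => ?_
      have h1 : aeval θ (C (c i) * β i * ϕ ^ k) =
          (⟨(c i : K) * aeval θ ϕ ^ k, mul_mem (hL1 (c i).2) (pow_mem hpp k)⟩ : L1) •
            aeval θ (β i) := by
        rw [map_mul, map_mul, aeval_C, map_pow]
        show (c i : K) * _ * _ = (c i : K) * aeval θ ϕ ^ k * _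
        ring
      rw [h1]
      exact B.smul_mem _ (hβ i)
    have hpow : ∀ k : ℕ, θ ^ k ∈ B := by
      intro k
      have h1 := hpoly (X ^ k)
      rwa [map_pow, aeval_X] at h1
    have hint : IsIntegral L1 θ := by
      refine ⟨ϕ.map (Subfield.inclusion hL1) - C ⟨aeval θ ϕ, hpp⟩, ?_, ?_⟩
      · refine (hK.monic.map _).sub_of_left ?_
        refine lt_of_le_of_lt degree_C_le ?_
        rw [degree_map]
        exact hdeg
      · rw [eval₂_sub, eval₂_C, eval₂_map, sub_eq_zero]
        rfl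
    have hz1 : z ∈ Subfield.closure (Set.range (algebraMap L1 K) ∪ {θ}) := by
      have h : L ⊔ Subfield.closure {θ} ≤
          Subfield.closure (Set.range (algebraMap L1 K) ∪ {θ}) := by
        refine sup_le ?_ (Subfield.closure_mono Set.subset_union_right)
        intro a ha
        exact Subfield.subset_closure (Or.inl ⟨⟨a, hL1 ha⟩, rfl⟩)
      exact h hz
    obtain ⟨f, hf⟩ := gen_alg hint hz1
    have hzB : z ∈ B := by
      rw [← hf, aeval_eq_sum_range]
      exact sum_mem fun k _ => B.smul_mem _ (hpow k)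
    rw [hB, Submodule.mem_span_range_iff_exists_fun] at hzB
    obtain ⟨c, hc⟩ := hzB
    exact ⟨c, hc.symm⟩
  · intro c i
    have h1 : ∀ j, ∃ f g : L[X], aeval (aeval θ ϕ) g ≠ 0 ∧
        (c j : K) * aeval (aeval θ ϕ) g = aeval (aeval θ ϕ) f := fun j =>
      gen_frac (mem_gen (c j).2)
    choose f g hg hfg using h1
    set b : K := ∏ j, aeval (aeval θ ϕ) (g j) with hb
    have hb0 : b ≠ 0 := Finset.prod_ne_zero_iff.2 fun j _ => hg j
    have h2 : ∀ j, (c j : K) * b = aeval (aeval θ ϕ) (f j * ∏ l ∈ Finset.univ.erase j, g l) := by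
      intro j
      rw [map_mul, map_prod, ← hfg j, hb, ← Finset.mul_prod_erase _ _ (Finset.mem_univ j)]
      ring
    have h3 := orth_poly hK hD (fun j => f j * ∏ l ∈ Finset.univ.erase j, g l) i
    simp only [← h2] at h3
    have h4 : ∑ j, (c j : K) * b * aeval θ (β j) = b * ∑ j, (c j : K) * aeval θ (β j) := by
      rw [Finset.mul_sum]
      refine Finset.sum_congr rfl fun j _ => ?_
      ring
    have h5 : (c i : K) * b * aeval θ (β i) = b * ((c i : K) * aeval θ (β i)) := by ring
    rw [h4, h5, map_mul, map_mul V.valuation b] at h3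
    have h6 : 0 < V.valuation b := zero_lt_iff.2 ((_root_.map_ne_zero _).2 hb0)
    exact (mul_le_mul_iff_right₀ h6).1 h3

end Pool.Agent.Y606.DT3
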